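import Mathlib
import Pool.Agent.H66.HW.Comnon2
import Pool.Agent.H66.HW.Core

/-!
Counterexamples to Hadwiger's conjecture and to its off-by-one form contain many pairs of vertices
with many common non-neighbours.
-/

set_option autoImplicit false

namespace Pool.Agent.OldHG.CommonNonNeighbours

open SimpleGraph Pool.Agent.Lib.H80

/-- `CliqueMinor G m`: the graph `G` has `m` pairwise disjoint vertex sets, each inducing a connected
subgraph, any two of them joined by an edge; that is, `K_m` is a minor of `G`. -/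
def CliqueMinor {V : Type*} (G : SimpleGraph V) (m : ℕ) : Prop :=
  ∃ f : Fin m → Set V,
    (∀ i, (G.induce (f i)).Connected) ∧
    (∀ i j, i ≠ j → Disjoint (f i) (f j)) ∧
    (∀ i j, i ≠ j → ∃ u ∈ f i, ∃ v ∈ f j, G.Adj u v)

/-- Let `G` be a finite graph which has no proper colouring with `k` colours and no `K_{k+1}` minor
(a counterexample to Hadwiger's conjecture).  Then there are a vertex set `S` and a number `j` such
that `G[S]` has no proper colouring with `j` colours; for every `t`, if `G` has no `K_{k+1-t}` minor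
then `G[S]` has no `K_{j+1-t}` minor; and for at least `|S| / 4000` vertices `v` of `S` there is another
vertex `w` of `S` such that `v` and `w` have `c` common non-neighbours in `S` with
`|S| < 10 ^ 7 * (c + 1) ^ 2`. -/
theorem result {V : Type*} [Fintype V] (G : SimpleGraph V) (k : ℕ) (hk : ¬ G.Colorable k)
    (hK : ¬ CliqueMinor G (k + 1)) :
    ∃ (S : Set V) (j : ℕ), ¬ (G.induce S).Colorable j ∧
      (∀ t, ¬ CliqueMinor G (k + 1 - t) → ¬ CliqueMinor (G.induce S) (j + 1 - t)) ∧
      S.ncard ≤ 4000 * Set.ncard {v | v ∈ S ∧ ∃ w ∈ S, v ≠ w ∧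
        S.ncard < 10000000 * (Set.ncard {z | z ∈ S ∧ Gᶜ.Adj v z ∧ Gᶜ.Adj w z} + 1) ^ 2} := by
  classical
  have hK' : ¬ Model G Set.univ (Fin (k + 1)) := fun h => hK h.hasK
  obtain ⟨S, j, h1, h2, h3⟩ := Pool.Agent.H66.HW.comnon2 G hk hK'
  refine ⟨(S : Set V), j, fun h => h1 (colOn_iff_induce.2 h), ?_, ?_⟩
  · intro t ht hS
    exact ht (h2 t (model_of_hasK_induce hS)).hasK
  · have hin : ∀ v w, Set.ncard {z | z ∈ (S : Set V) ∧ Gᶜ.Adj v z ∧ Gᶜ.Adj w z} =
        (S.filter (fun z => (v ≠ z ∧ ¬ G.Adj v z) ∧ w ≠ z ∧ ¬ G.Adj w z)).card := by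
      intro v w
      rw [← Set.ncard_coe_finset]
      congr 1
      ext z
      simp only [Set.mem_ofPred_eq, SimpleGraph.compl_adj, Finset.mem_coe, Finset.mem_filter]
    have hout : Set.ncard {v | v ∈ (S : Set V) ∧ ∃ w ∈ (S : Set V), v ≠ w ∧
        Set.ncard (S : Set V) < 10000000 *
          (Set.ncard {z | z ∈ (S : Set V) ∧ Gᶜ.Adj v z ∧ Gᶜ.Adj w z} + 1) ^ 2} =
        (S.filter (fun v => ∃ w ∈ S, v ≠ w ∧ S.card < 10000000 *
          ((S.filter (fun z => (v ≠ z ∧ ¬ G.Adj v z) ∧ w ≠ z ∧ ¬ G.Adj w z)).card + 1) ^ 2)).card := by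
      rw [← Set.ncard_coe_finset]
      congr 1
      ext v
      have h := hin v
      simp only [Finset.mem_coe] at h
      simp only [Set.mem_ofPred_eq, Finset.mem_coe, Finset.mem_filter, Set.ncard_coe_finset, h]
    rw [hout, Set.ncard_coe_finset]
    exact h3

end Pool.Agent.OldHG.CommonNonNeighbours
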