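import Mathlib
import Pool.Agent.H66.HW.Degseq2
import Pool.Agent.H66.HW.Core

/-!
The numbers of non-neighbours in counterexamples to Hadwiger's conjecture and to its off-by-one form.
-/

set_option autoImplicit false

namespace Pool.Agent.OldHG.DegreeSequence

open SimpleGraph Pool.Agent.Lib.H80

/-- `CliqueMinor G m`: the graph `G` has `m` pairwise disjoint vertex sets, each inducing a connected
subgraph, any two of them joined by an edge; that is, `K_m` is a minor of `G`. -/
def CliqueMinor {V : Type*} (G : SimpleGraph V) (m : ℕ) : Prop :=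
  ∃ f : Fin m → Set V,
    (∀ i, (G.induce (f i)).Connected) ∧
    (∀ i j, i ≠ j → Disjoint (f i) (f j)) ∧
    (∀ i j, i ≠ j → ∃ u ∈ f i, ∃ v ∈ f j, G.Adj u v)

/-- Let `G` be a finite graph which has no proper colouring with `k` colours and no `K_{k+1}` minor
(a counterexample to Hadwiger's conjecture).  Then there are a vertex set `S` and a number `j` such
that `G[S]` has no proper colouring with `j` colours; for every `t`, if `G` has no `K_{k+1-t}` minor
then `G[S]` has no `K_{j+1-t}` minor; and, for every `t ≥ 1` with `10 ^ 15 * t ^ 4 < |S| ^ 3`, if `h` is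
the number of vertices of `S` with more than `t` non-neighbours in `S`, and `e` is the number of
ordered pairs of distinct non-adjacent vertices of `S` with first vertex of this kind, then
`|S| ≤ 2000 * h`, or `|S| < 800 * t ^ 2` and `|S| ^ 2 ≤ 60000 * t * e`. -/
theorem result {V : Type*} [Fintype V] (G : SimpleGraph V) (k : ℕ) (hk : ¬ G.Colorable k)
    (hK : ¬ CliqueMinor G (k + 1)) :
    ∃ (S : Set V) (j : ℕ), ¬ (G.induce S).Colorable j ∧
      (∀ t, ¬ CliqueMinor G (k + 1 - t) → ¬ CliqueMinor (G.induce S) (j + 1 - t)) ∧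
      ∀ t, 1 ≤ t → 1000000000000000 * t ^ 4 < S.ncard ^ 3 →
        S.ncard ≤ 2000 * Set.ncard {v | v ∈ S ∧ t < Set.ncard {w | w ∈ S ∧ Gᶜ.Adj v w}} ∨
        (S.ncard < 800 * t ^ 2 ∧
          S.ncard ^ 2 ≤ 60000 * (t * Set.ncard {p : V × V | p.1 ∈ S ∧ p.2 ∈ S ∧
            Gᶜ.Adj p.1 p.2 ∧ t < Set.ncard {w | w ∈ S ∧ Gᶜ.Adj p.1 w}})) := by
  classical
  have hK' : ¬ Model G Set.univ (Fin (k + 1)) := fun h => hK h.hasK
  obtain ⟨S, j, h1, h2, h3⟩ := Pool.Agent.H66.HW.degseq2 G hk hK'
  refine ⟨(S : Set V), j, fun h => h1 (colOn_iff_induce.2 h), ?_, ?_⟩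
  · intro t ht hS
    exact ht (h2 t (model_of_hasK_induce hS)).hasK
  · intro t ht1 ht2
    rw [Set.ncard_coe_finset] at ht2 ⊢
    have hin : ∀ v, Set.ncard {w | w ∈ S ∧ Gᶜ.Adj v w} =
        (S.filter (fun w => v ≠ w ∧ ¬ G.Adj v w)).card := by
      intro v
      rw [← Set.ncard_coe_finset]
      congr 1
      ext w
      simp only [Set.mem_ofPred_eq, SimpleGraph.compl_adj, Finset.mem_coe, Finset.mem_filter]
    have hout : Set.ncard {v | v ∈ S ∧ t < Set.ncard {w | w ∈ S ∧ Gᶜ.Adj v w}} =
        (S.filter (fun v => t < (S.filter (fun w => v ≠ w ∧ ¬ G.Adj v w)).card)).card := by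
      rw [← Set.ncard_coe_finset]
      congr 1
      ext v
      simp only [Set.mem_ofPred_eq, Finset.mem_coe, Finset.mem_filter, hin]
    have hpair : Set.ncard {p : V × V | p.1 ∈ S ∧ p.2 ∈ S ∧
            Gᶜ.Adj p.1 p.2 ∧ t < Set.ncard {w | w ∈ S ∧ Gᶜ.Adj p.1 w}} =
        ∑ v ∈ S.filter (fun v => t < (S.filter (fun w => v ≠ w ∧ ¬ G.Adj v w)).card),
            (S.filter (fun w => v ≠ w ∧ ¬ G.Adj v w)).card := by
      have e1 : {p : V × V | p.1 ∈ S ∧ p.2 ∈ S ∧
            Gᶜ.Adj p.1 p.2 ∧ t < Set.ncard {w | w ∈ S ∧ Gᶜ.Adj p.1 w}} =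
          (((S ×ˢ S).filter (fun p => (p.1 ≠ p.2 ∧ ¬ G.Adj p.1 p.2) ∧
            t < (S.filter (fun w => p.1 ≠ w ∧ ¬ G.Adj p.1 w)).card) : Finset (V × V)) :
            Set (V × V)) := by
        ext p
        simp only [Set.mem_ofPred_eq]
        rw [hin p.1]
        simp only [Finset.mem_coe, Finset.mem_filter, Finset.mem_product, SimpleGraph.compl_adj]
        tauto
      rw [e1, Set.ncard_coe_finset, Finset.card_eq_sum_card_fiberwise (f := Prod.fst)
        (t := S.filter (fun v => t < (S.filter (fun w => v ≠ w ∧ ¬ G.Adj v w)).card))]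
      · apply Finset.sum_congr rfl
        intro v hv
        rw [Finset.mem_filter] at hv
        apply Finset.card_nbij' (fun p => p.2) (fun w => (v, w))
        · intro p hp
          rw [Finset.mem_coe, Finset.mem_filter, Finset.mem_filter, Finset.mem_product] at hp
          rw [Finset.mem_coe, Finset.mem_filter]
          obtain ⟨⟨⟨-, g2⟩, g3, -⟩, rfl⟩ := hp
          exact ⟨g2, g3⟩
        · intro w hw
          rw [Finset.mem_coe, Finset.mem_filter] at hw
          rw [Finset.mem_coe, Finset.mem_filter, Finset.mem_filter, Finset.mem_product]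
          exact ⟨⟨⟨hv.1, hw.1⟩, hw.2, hv.2⟩, rfl⟩
        · intro p hp
          rw [Finset.mem_coe, Finset.mem_filter] at hp
          exact Prod.ext hp.2.symm rfl
        · intro w _
          rfl
      · intro p hp
        rw [Finset.mem_coe, Finset.mem_filter, Finset.mem_product] at hp
        rw [Finset.mem_coe, Finset.mem_filter]
        exact ⟨hp.1.1, hp.2.2⟩
    simp only [Finset.mem_coe]
    rw [hout, hpair]
    exact h3 t ht1 ht2

end Pool.Agent.OldHG.DegreeSequence
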