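import Mathlib
import Pool.Agent.T3F.Final

/-!
Hadwiger's conjecture for the graphs whose complement is 3-colourable.
-/

set_option autoImplicit false

namespace Pool.Agent.Results.MP_b47bfb_co.ThreeCliques

/-- Every finite graph whose vertex set is the union of three cliques satisfies Hadwiger's conjecture. -/
theorem result {V : Type} [Fintype V] (G : SimpleGraph V) (h3 : Gᶜ.Colorable 3) (k : ℕ)
    (hk : ¬ G.Colorable k) :
    ∃ f : Fin (k + 1) → Set V,
      (∀ i, (G.induce (f i)).Connected) ∧
      (∀ i j, i ≠ j → Disjoint (f i) (f j)) ∧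
      (∀ i j, i ≠ j → ∃ u ∈ f i, ∃ v ∈ f j, G.Adj u v) := by
  obtain ⟨c⟩ := h3
  refine Pool.Agent.T3F.hadwiger_three (fun v => c v) ?_ hk
  intro u v huv hc
  by_contra hadj
  exact c.valid ((SimpleGraph.compl_adj G u v).2 ⟨huv, hadj⟩) hc

end Pool.Agent.Results.MP_b47bfb_co.ThreeCliques
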